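import Pool.Agent.Q12.ST.Frob

/-!
# The Sato-Tate law for almost all Artin twists

`K` is a number field and `x v` the Sato-Tate class of the prime `v` for a compatible family `ρ` over `K`
as in the problem, a point of the compact space `Y` of the conjugacy classes of `ST_K` (any point at the
finitely many exceptional primes).  Let `H` be a finite group and `ξ : Gal(K̄/K) → H` a continuous
surjective homomorphism.  For a rational representation of `H` the twist of `ρ` by its composition with
`ξ` is again such a family; if `ST_K` is connected, the Sato-Tate law for all these twists of `ρ` (for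
instance for the restriction of scalars of `ρ` restricted to the fixed field `L` of the kernel of `ξ`,
for a regular representation) is the law
`avg f (x v, ξ(Frob v)) → ∫ f dμ × (uniform measure of H)` for the continuous functions `f` on
`ST_K × H` which are class functions.  It is the law for `ρ` together with the independence of `x v` and
`ξ(Frob v)`.

The theorem, which is unconditional, is about this independence.  Let `ξ i` be a family of such
homomorphisms of which any two are onto `H × H` (the fields `L i` are pairwise linearly disjoint).  For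
the products `(ξ (t 0), ..., ξ (t k))` of `k + 1` members, for all but `O(n ^ k)` of the `n ^ (k + 1)`
elements `t` of `J ^ (k + 1)`, `|J| = n`, at every large scale the average of
`f (x v, ξ (t 0) (Frob v), ..., ξ (t k) (Frob v))` is up to `ε` the average of
`|H| ^ (-(k + 1)) ∑ h, f (x v, h 0, ..., h k)`.  Nothing is assumed on the `x v`.  So if the law holds for
`ρ`, then it holds at every large scale with any precision for all but `O(n ^ k)` of the twists.  The
exponent is the best possible: there are tuples with `t 0 = t 1`, and `n ^ 2` triples of different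
quadratic characters in a group whose product is trivial.
-/

set_option autoImplicit false

namespace Pool.Agent.Results.MP_4c4ce6_nt.AlmostAllArtinTwists

open NumberField IsDedekindDomain Filter Topology MeasureTheory Pool.Agent.Q12.ST

section

variable {K : Type} [Field K] [NumberField K]

/-- The average of `φ` over the primes of `K` of norm at most `N`. -/
noncomputable def avg (φ : HeightOneSpectrum (𝓞 K) → ℂ) (N : ℕ) : ℂ :=
  (∑ᶠ v : {v : HeightOneSpectrum (𝓞 K) // Ideal.absNorm v.asIdeal ≤ N}, φ v.1) /
    (Nat.card {v : HeightOneSpectrum (𝓞 K) // Ideal.absNorm v.asIdeal ≤ N} : ℂ)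

/-- The absolute Galois group of `K`. -/
abbrev Gamma (K : Type) [Field K] : Type := Gal(AlgebraicClosure K/K)

/-- `s` is a Frobenius element at the prime `v` of `K`: there is a maximal ideal `Q` above `v` of the ring
of all algebraic integers with `s x ≡ x ^ N(v)` modulo `Q` for all `x`. -/
def IsFrobeniusElement (v : HeightOneSpectrum (𝓞 K)) (s : Gamma K) : Prop :=
  ∃ Q : Ideal (𝓞 (AlgebraicClosure K)), Q.IsMaximal ∧
    Q.comap (algebraMap (𝓞 K) (𝓞 (AlgebraicClosure K))) = v.asIdeal ∧
    ∀ x : 𝓞 (AlgebraicClosure K), s • x - x ^ Ideal.absNorm v.asIdeal ∈ Q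

/-- The `ξ i` are continuous surjective homomorphisms of the absolute Galois group to `H`, and any two of
them are jointly surjective. -/
structure PairwiseDisjoint {ι H : Type} [Group H] (ξ : ι → Gamma K →* H) : Prop where
  openKernel : ∀ i, IsOpen ((ξ i).ker : Set (Gamma K))
  onto : ∀ i, Function.Surjective (ξ i)
  pairs : ∀ i j, i ≠ j → Function.Surjective ((ξ i).prod (ξ j))

/-- `z i v` is the image under `ξ i` of a Frobenius element `σ v` at `v`, for a pairwise disjoint family
`ξ`. -/
def IsFrobeniusFamily {ι H : Type} [Group H] (z : ι → HeightOneSpectrum (𝓞 K) → H) : Prop :=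
  ∃ (σ : HeightOneSpectrum (𝓞 K) → Gamma K) (ξ : ι → Gamma K →* H),
    (∀ v, IsFrobeniusElement v (σ v)) ∧ PairwiseDisjoint ξ ∧ ∀ i v, z i v = ξ i (σ v)

/-- The set of the `t ∈ J ^ m` for which the average of `f (y v, (z (t 0) v, ..., z (t (m - 1)) v))` over
the primes of norm at most `N` differs by more than `ε` from the average of
`|H| ^ (-m) ∑ h, f (y v, h)`. -/
def exceptional {ι H Y : Type} (z : ι → HeightOneSpectrum (𝓞 K) → H)
    (y : HeightOneSpectrum (𝓞 K) → Y) {m : ℕ} (f : Y × (Fin m → H) → ℂ) (ε : ℝ) (J : Finset ι)
    (N : ℕ) : Set (Fin m → ι) :=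
  {t | (∀ l, t l ∈ J) ∧ ε < ‖avg (fun v => f (y v, fun l => z (t l) v)) N -
    avg (fun v => ((Nat.card H : ℂ) ^ m)⁻¹ * ∑ᶠ h, f (y v, h)) N‖}

end

section Bridge

variable {K : Type} [Field K] [NumberField K]

theorem avg_eq (g : HeightOneSpectrum (𝓞 K) → ℂ) (N : ℕ) : avg g N = ex (PV K N) g := avg_ex g N

end Bridge

/-- **The Sato-Tate law for almost all Artin twists.**  Let `H` be a finite group, `Y` a compact
Hausdorff space, `k ≥ 0`, `f` a function on `Y × H ^ (k + 1)`, continuous in the first variable and a
class function in each of the others, and `ε > 0`.  Then there is a number `C` with the following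
property.  Let `K` be a number field, `σ v` Frobenius elements at the primes `v` of `K` in
`Γ = Gal(K̄/K)`, `ξ i : Γ → H`, `i ∈ ι`, surjective homomorphisms with open kernels such that
`(ξ i, ξ j) : Γ → H × H` is surjective for `i ≠ j`, and `z i v = ξ i (σ v)`.  Then for every finite
subset `J` of `ι` and all sufficiently large `N`: for all `y v ∈ Y`, without any assumption on `y`, the
number of the `t ∈ J ^ (k + 1)` such that the averages over the primes of norm at most `N` of
`f (y v, (z (t 0) v, ..., z (t k) v))` and of `|H| ^ (-(k + 1)) ∑ h, f (y v, h)` differ by more than `ε`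
is at most `C |J| ^ k`. -/
theorem result (H Y : Type) [Group H] [Finite H] [TopologicalSpace Y] [CompactSpace Y] [T2Space Y]
    (k : ℕ) (f : Y × (Fin (k + 1) → H) → ℂ) (hf : ∀ h, Continuous fun y => f (y, h))
    (hcl : ∀ (y : Y) (h g : Fin (k + 1) → H), f (y, fun l => g l * h l * (g l)⁻¹) = f (y, h))
    (ε : ℝ) (hε : 0 < ε) :
    ∃ C : ℝ, ∀ (K : Type) [Field K] [NumberField K] (ι : Type)
      (z : ι → HeightOneSpectrum (𝓞 K) → H), IsFrobeniusFamily z →
      ∀ J : Finset ι, ∀ᶠ N in atTop, ∀ y : HeightOneSpectrum (𝓞 K) → Y,
        ((exceptional z y f ε J N).ncard : ℝ) ≤ C * (J.card : ℝ) ^ k := by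
  classical
  let _ : Fintype H := Fintype.ofFinite H
  let _ : TopologicalSpace (ConjClasses H) := ⊥
  have _ : DiscreteTopology (ConjClasses H) := ⟨rfl⟩
  let _ : MeasurableSpace (ConjClasses H) := borel _
  have _ : BorelSpace (ConjClasses H) := ⟨rfl⟩
  have _ : Finite (ConjClasses H) := inferInstance
  -- the function on the classes
  let F : Y × (Fin (k + 1) → ConjClasses H) → ℂ := fun p => f (p.1, fun l => (p.2 l).out)
  have hF : ∀ y (h : Fin (k + 1) → H), F (y, fun l => ConjClasses.mk (h l)) = f (y, h) := by
    intro y h
    have h1 : ∀ l, ∃ g : H, g * h l * g⁻¹ = (ConjClasses.mk (h l)).out := fun l => by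
      have h2 : IsConj (h l) (ConjClasses.mk (h l)).out := by
        rw [← ConjClasses.mk_eq_mk_iff_isConj]
        exact (Quotient.out_eq (ConjClasses.mk (h l))).symm
      exact isConj_iff.1 h2
    choose g hg using h1
    rw [← hcl y h g]
    change f (y, fun l => (ConjClasses.mk (h l)).out) = _
    simp only [hg]
  have hFc : Continuous F := by
    rw [continuous_prod_of_discrete_right]
    intro c
    exact hf fun l => (c l).out
  obtain ⟨C, hC⟩ := tuples_allU (k + 1) hFc hε
  refine ⟨max C 0, fun K _ _ ι z hz J => ?_⟩
  obtain ⟨σ, ξ, hσ, ⟨h1, h2, h3⟩, hzz⟩ := hz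
  have hpi := pi_frob ξ h1 h2 h3 σ hσ
  filter_upwards [hC _ ι (PV K) _ (fun _ => mH H) hpi J] with N hN y
  have h4 := hN y
  have h5 : (exceptional z y f ε J N).ncard =
      ((Fintype.piFinset fun _ : Fin (k + 1) => J).filter fun t =>
        ε < ‖ex (PV K N) (fun v => F (y v, fun l => ConjClasses.mk (ξ (t l) (σ v)))) -
          ex (PV K N) fun v => ∫ z, F (y v, z) ∂(Measure.pi fun _ => mH H)‖).card := by
    rw [← Set.ncard_coe_finset]
    congr 1
    ext t
    rw [Finset.mem_coe, Finset.mem_filter, Fintype.mem_piFinset, ← avg_eq, ← avg_eq]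
    unfold exceptional
    simp only [hF, int_pi_mH, finsum_eq_sum_of_fintype, hzz]
    rfl
  rw [h5]
  rcases J.eq_empty_or_nonempty with rfl | hJ
  · have e : (Fintype.piFinset fun _ : Fin (k + 1) => (∅ : Finset ι)) = ∅ := by
      rw [Fintype.piFinset_eq_empty]
      exact ⟨0, rfl⟩
    rw [e, Finset.filter_empty, Finset.card_empty, Nat.cast_zero, Finset.card_empty, Nat.cast_zero]
    exact mul_nonneg (le_max_right _ _) (by positivity)
  · have h6 : (0 : ℝ) < J.card := by exact_mod_cast hJ.card_pos
    rw [pow_succ (J.card : ℝ) k, ← mul_assoc] at h4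
    exact (le_of_mul_le_mul_right h4 h6).trans
      (mul_le_mul_of_nonneg_right (le_max_left _ _) (by positivity))

end Pool.Agent.Results.MP_4c4ce6_nt.AlmostAllArtinTwists
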