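import Pool.Agent.Q14.ST.Main

/-!
# The Sato-Tate moments of the traces of Frobenius of almost all families of hyperelliptic curves,
along arbitrary sequences of primes and at all scales

Let `g₁, ..., g_r ≥ 1` and let `f₁, ..., f_r` be monic polynomials with integral coefficients, `f_k` of
degree `2 g_k + 1`.  The curve `C_k : y² = f_k(x)` has genus `g_k` (if `f_k` is separable) and one
point at infinity; for the primes `p` for which `f_k` is separable modulo `p`, `p` odd, it has good
reduction and the trace of the Frobenius on `V = H¹(C_k)`, divided by `p^(1/2)`, is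
`- a_p(f_k)`, `a_p(f_k) = (N_p - p - 1) / p^(1/2)`, `N_p` the number of points modulo `p`.  The direct
sum of the `H¹(C_k)` is a family of odd weight `1`.  When the Jacobians have no extra endomorphisms
and are not isogenous, the Sato-Tate group is the product of the groups `USp(2 g_k)`, and the
conjecture says that for all exponents `m_k` the mean of `∏ a_p(f_k) ^ m_k` over the good primes
`p ≤ y` tends to `∏ ∫ tr(x)^{m_k}`, the integrals over `USp(2 g_k)`.  For `m_k ≤ 2 g_k + 1` they are
the moments of the normal distribution: `(m_k - 1)!!` for even `m_k`, and `0` for odd `m_k`.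

We prove this unconditionally for almost all tuples `(f_1, ..., f_r)`, for all scales `y` from an arbitrarily
small power of `X` up to `X^(1/2 - δ)`, where `X` is the side of the box of coefficients (in any
position), and for all `m_k ≤ 2 g_k + 1`.  The primes can be restricted to an arbitrary (sparse) set,
and even taken in an arbitrary order: for every `ε > 0` there is a constant `C` such that for any
distinct primes `p_1, ..., p_J ≤ Q` and any `L ≥ 1` all but `C (1/L + Q²/X) log X · X^(∑ (2 g_k + 1))`
of the tuples of the box have means over the good primes among `p_1, ..., p_j` which differ from the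
predicted ones by at most `ε`, for all `L ≤ j ≤ J` simultaneously.

Proof: the values of a random polynomial of degree `d` at `≤ d` points are independent, which gives
the moments of order `≤ 2 g + 1` for a fixed prime; Weil's bound; independence for different primes
(a second moment over the box); inseparable polynomials are rare.
-/

set_option autoImplicit false

namespace Pool.Agent.Results.MP_4c4ce6_nt.AlmostAllCurves

open Polynomial

/-- The monic polynomial `x^d + n_{d-1} x^{d-1} + ... + n_0`. -/
noncomputable def monic {d : ℕ} (n : Fin d → ℤ) : ℤ[X] := X ^ d + ∑ i, C (n i) * X ^ (i : ℕ)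

/-- The polynomial `f` modulo `p`. -/
noncomputable def mod (p : ℕ) (f : ℤ[X]) : (ZMod p)[X] := f.map (Int.castRingHom (ZMod p))

/-- The number of the points modulo `p` of the curve `y² = f(x)`, `f` monic of odd degree: the affine
points and one point at infinity. -/
noncomputable def points (p : ℕ) (f : ℤ[X]) : ℕ :=
  Nat.card {P : ZMod p × ZMod p // P.2 ^ 2 = (mod p f).eval P.1} + 1

/-- `a_p(f) = (N_p - p - 1) / p^(1/2)`; this is minus the normalised trace of the Frobenius. -/
noncomputable def a (p : ℕ) (f : ℤ[X]) : ℝ := ((points p f : ℝ) - p - 1) / √(p : ℝ)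

variable {r : ℕ} {g : Fin r → ℕ}

/-- The polynomials `f_1, ..., f_r` with the lower coefficients `n`, `f_k` monic of degree `2 g_k + 1`. -/
noncomputable def f (n : (Σ k : Fin r, Fin (2 * g k + 1)) → ℤ) (k : Fin r) : ℤ[X] :=
  monic fun i => n ⟨k, i⟩

/-- The prime `p` is good: odd, and all `f_k` are separable modulo `p`. -/
def Good (n : (Σ k : Fin r, Fin (2 * g k + 1)) → ℤ) (p : ℕ) : Prop :=
  p ≠ 2 ∧ ∀ k, (mod p (f n k)).Separable

open Classical in
/-- The mean of `∏ a_p(f_k) ^ m_k` over the good primes `p` among the first `j` primes of the sequence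
`P 0, P 1, P 2, ...`. -/
noncomputable def average (m : Fin r → ℕ) (P : ℕ → ℕ) (n : (Σ k : Fin r, Fin (2 * g k + 1)) → ℤ)
    (j : ℕ) : ℝ :=
  (∑ i ∈ (Finset.range j).filter (fun i => Good n (P i)), ∏ k, a (P i) (f n k) ^ m k) /
    (((Finset.range j).filter (fun i => Good n (P i))).card : ℝ)

/-- The moments of the normal distribution: `(m - 1)!!` for even `m`, and `0` for odd `m`. -/
noncomputable def normal (m : ℕ) : ℝ := if Even m then (Nat.doubleFactorial (m - 1) : ℝ) else 0

/-! ### translation -/

open Pool.Agent.Q14.ST in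
lemma gm_eq (m : ℕ) : gm m = normal m := by
  induction m using Nat.strong_induction_on with
  | _ m ih =>
    match m with
    | 0 => simp [gm, normal]
    | 1 => simp [gm, normal]
    | m + 2 =>
      rw [gm, ih m (by omega), normal, normal]
      by_cases h : Even m
      · rw [if_pos h, if_pos (by simpa [Nat.even_add] using h)]
        rcases m with _ | m
        · simp
        · have e1 : m + 1 + 2 - 1 = m + 2 := by omega
          have e2 : m + 1 - 1 = m := by omega
          rw [e1, e2, Nat.doubleFactorial]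
          push_cast
          ring
      · rw [if_neg h, if_neg (by simpa [Nat.even_add] using h), mul_zero]

open Pool.Agent.Q14.ST in
lemma mod_monic (p d : ℕ) (n : Fin d → ℤ) : mod p (monic n) = mpoly (fun i => (n i : ZMod p)) := by
  simp [mod, monic, mpoly, Polynomial.map_sum]

open Pool.Agent.Q14.ST in
lemma a_eq (p : ℕ) [Fact p.Prime] (hp : p ≠ 2) (d : ℕ) (n : Fin d → ℤ) :
    a p (monic n) = tt (fun i => (n i : ZMod p)) := by
  have hp' : ringChar (ZMod p) ≠ 2 := by rwa [ZMod.ringChar_zmod_n]
  rw [a, tt]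
  congr 1
  have h1 : Nat.card {P : ZMod p × ZMod p // P.2 ^ 2 = (mod p (monic n)).eval P.1} =
      ∑ x : ZMod p, Nat.card {y : ZMod p // y ^ 2 = (mod p (monic n)).eval x} := by
    rw [← Nat.card_sigma]
    refine Nat.card_congr ⟨fun P => ⟨P.1.1, P.1.2, P.2⟩, fun P => ⟨(P.1, P.2.1), P.2.2⟩, ?_, ?_⟩
    · intro P; rfl
    · intro P; rfl
  have h2 : ∀ x : ZMod p, ((Nat.card {y : ZMod p // y ^ 2 = (mod p (monic n)).eval x} : ℕ) : ℤ) =
      quadraticChar (ZMod p) ((mod p (monic n)).eval x) + 1 := by
    intro x
    rw [← quadraticChar_card_sqrts hp', Set.toFinset_card, Nat.card_eq_fintype_card]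
    congr 1
  have h3 : ((points p (monic n) : ℕ) : ℤ) = ∑ x : ZMod p,
      (quadraticChar (ZMod p) ((mod p (monic n)).eval x) + 1) + 1 := by
    rw [points, h1]
    push_cast
    rw [Finset.sum_congr rfl fun x _ => h2 x]
  have h4 : ((points p (monic n) : ℕ) : ℝ) = ∑ x : ZMod p,
      ((quadraticChar (ZMod p) ((mod p (monic n)).eval x) : ℝ) + 1) + 1 := by
    exact_mod_cast h3
  rw [h4, Finset.sum_add_distrib, Finset.sum_const, Finset.card_univ, ZMod.card, cs]
  simp only [mod_monic, eval_mpoly]
  simp only [nsmul_eq_mul, mul_one]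
  ring

open Pool.Agent.Q14.ST in
lemma G1_eq (m : Fin r → ℕ) {p : ℕ} (hp : p.Prime) (n : (Σ k : Fin r, Fin (2 * g k + 1)) → ℤ) :
    G1 (d := fun k => 2 * g k + 1) m p (red p n) =
      open Classical in if Good n p then ∏ k, a p (f n k) ^ m k else 0 := by
  classical
  have hb : ∀ k, blk k (red p n) = fun i : Fin (2 * g k + 1) => ((n ⟨k, i⟩ : ℤ) : ZMod p) := by
    intro k
    rfl
  unfold G1
  rw [dif_pos hp]
  have hg : (p ≠ 2 ∧ ∀ k, (mpoly (blk k (red p n))).Separable) ↔ Good n p := by
    unfold Good f
    simp only [mod_monic, hb]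
  by_cases h : Good n p
  · rw [if_pos (hg.2 h), if_pos h]
    haveI : Fact p.Prime := ⟨hp⟩
    refine Finset.prod_congr rfl fun k _ => ?_
    rw [f, a_eq p h.1, hb]
  · rw [if_neg (fun h' => h (hg.1 h')), if_neg h]

open Pool.Agent.Q14.ST in
lemma average_eq (m : Fin r → ℕ) {P : ℕ → ℕ} (n : (Σ k : Fin r, Fin (2 * g k + 1)) → ℤ) {j : ℕ}
    (hP : ∀ i < j, (P i).Prime) :
    average m P n j = S1 m P n j / S1 (d := fun k => 2 * g k + 1) (fun _ => 0) P n j := by
  classical
  have h1 : ∀ m : Fin r → ℕ, S1 (d := fun k => 2 * g k + 1) m P n j =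
      ∑ i ∈ (Finset.range j).filter (fun i => Good n (P i)), ∏ k, a (P i) (f n k) ^ m k := by
    intro m
    rw [S1, Finset.sum_filter]
    refine Finset.sum_congr rfl fun i hi => ?_
    rw [G1_eq m (hP i (Finset.mem_range.1 hi))]
  rw [average, h1, h1]
  congr 1
  simp

open Classical in
/-- **The moments of the traces of Frobenius of almost all tuples of hyperelliptic curves.** -/
theorem result (r : ℕ) (g : Fin r → ℕ) (m : Fin r → ℕ) (hm : ∀ k, m k ≤ 2 * g k + 1) (ε : ℝ)
    (hε : 0 < ε) :
    ∃ C : ℝ, ∀ (X L J Q : ℕ) (A : (Σ k : Fin r, Fin (2 * g k + 1)) → ℤ) (P : ℕ → ℕ),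
      2 ≤ X → 1 ≤ L → (∀ i < J, (P i).Prime ∧ P i ≤ Q) → Set.InjOn P (Set.Iio J) →
      (Set.ncard {n : (Σ k : Fin r, Fin (2 * g k + 1)) → ℤ | (∀ x, A x ≤ n x ∧ n x < A x + X) ∧
          ∃ j, L ≤ j ∧ j ≤ J ∧ ε < |average m P n j - ∏ k, normal (m k)|} : ℝ) ≤
        C * Real.log X * (1 / L + (Q : ℝ) ^ 2 / X) * (X : ℝ) ^ (∑ k, (2 * g k + 1)) := by
  obtain ⟨C, -, hC⟩ := Pool.Agent.Q14.ST.main (d := fun k => 2 * g k + 1)
    (fun k => odd_two_mul_add_one _) m hm hε
  refine ⟨C, fun X L J Q A P hX hL hP hinj => ?_⟩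
  have h := hC X L J Q A P hX hL hP hinj
  rw [Pool.Agent.Q14.ST.card_sigma'] at h
  refine le_trans (le_of_eq ?_) h
  congr 1
  rw [← Set.ncard_coe_finset]
  congr 1
  ext n
  rw [Finset.mem_coe, Finset.mem_filter, Pool.Agent.Q14.ST.box, Fintype.mem_piFinset]
  simp only [Set.mem_ofPred_eq, Finset.mem_Ico]
  refine and_congr_right fun _ => ?_
  refine exists_congr fun j => and_congr_right fun _ => and_congr_right fun hj => ?_
  rw [average_eq m n (fun i hi => (hP i (lt_of_lt_of_le hi hj)).1)]
  simp only [gm_eq]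

end Pool.Agent.Results.MP_4c4ce6_nt.AlmostAllCurves
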