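import Pool.Agent.Q11.LQ.Twist

/-!
# The odd part of the Sato-Tate law for almost all quadratic twists, from a power of the logarithm on

`K` is a number field, `V` an odd-weight compatible family over `K` as in the problem, for instance that of
an abelian variety, and `x_v`, for the primes `v` of `K`, its classes, elements of the space `S` of the
conjugacy classes of a compact group containing `-1`, for instance the compact symplectic group of the
dimension of `V` or `ST_K · {±1}`, with a metric for which `σ`, the multiplication by `-1`, is an isometry.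
For a squarefree integer `m` the twist `V^m` of `V` by the quadratic character of `K(√m)/K` is a family of
the same kind; its class at a prime `v` not dividing `2m` is `x_v` if `m` is a square modulo `v` and `σ(x_v)`
if not.  The Sato-Tate laws for `V` and `V^m` imply, if `√m` is not in the field of definition of the
components of `ST_K · {±1}`, that the classes of `V^m` have in the limit the same law as the classes of `V`
and their images under `σ` together, which we call the symmetrised law of `V`.

We show that this holds up to `1/k` for almost all `m`, at all scales between a power of the logarithm and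
a small power: given `A > 1` (a real number) and `ε > 0`, for all but `O(X^{1/A + ε})` of the squarefree
integers `m` with `|m| ≤ X` the law of the classes of `V^m` at the primes of norm at most `N` is within
`1/k` of the symmetrised law of `V` for all `N` with `(log X)^A ≤ N ≤ X^c`.  The constants depend on `K`, a
finite set of primes outside which the above formula for the classes is supposed to hold, the number `ν`
of cells of diameter at most `1/(16 k)` into which `S` can be divided, `k`, `A` and `ε`, but not on the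
family.  In particular the family may be replaced by its twist by an integer `D`, and the constants do not
depend on `D`.

The proof uses Heath-Brown's quadratic large sieve, but no L-function of the family, and nothing is
assumed about the `x_v`.
-/

set_option autoImplicit false

namespace Pool.Agent.Results.MP_4c4ce6_nt.AlmostAllTwists

open NumberField IsDedekindDomain Filter Topology

section

variable {K : Type} [Field K] [NumberField K]

/-- The average of `φ` over the primes of `K` of norm at most `N`. -/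
noncomputable def avg (φ : HeightOneSpectrum (𝓞 K) → ℝ) (N : ℕ) : ℝ :=
  (∑ᶠ v : {v : HeightOneSpectrum (𝓞 K) // Ideal.absNorm v.asIdeal ≤ N}, φ v.1) /
    (Nat.card {v : HeightOneSpectrum (𝓞 K) // Ideal.absNorm v.asIdeal ≤ N} : ℝ)

/-- The law of the `c v` at the scale `N` is at distance less than `1/k` from the symmetrised law of the
`x v` at the scale `N`, in the dual bounded Lipschitz distance: for all `1`-Lipschitz functions `f` with
values in `[-1, 1]` the averages of `f (c v)` and of `(f (x v) + f (σ (x v))) / 2` over the primes `v` of norm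
at most `N` differ by less than `1/k`. -/
def Symmetric {S : Type} [MetricSpace S] (σ : S → S) (x c : HeightOneSpectrum (𝓞 K) → S)
    (N k : ℕ) : Prop :=
  ∀ f : S → ℝ, LipschitzWith 1 f → (∀ y, |f y| ≤ 1) →
    |avg (fun v => f (c v)) N - avg (fun v => (f (x v) + f (σ (x v))) / 2) N| < 1 / k

/-- The `c v` are the classes of the twist by the integer `m` of the `x v`: for all primes `v ∉ Z` of `K`
not dividing `2 m`, `c v` is `x v` if `m` is a square modulo `v`, and `σ (x v)` if not. -/
def Twist {S : Type} (Z : Finset (HeightOneSpectrum (𝓞 K))) (m : ℤ) (σ : S → S)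
    (x c : HeightOneSpectrum (𝓞 K) → S) : Prop :=
  ∀ v, v ∉ Z → ((2 * m : ℤ) : 𝓞 K) ∉ v.asIdeal →
    (IsSquare (Ideal.Quotient.mk v.asIdeal ((m : ℤ) : 𝓞 K)) → c v = x v) ∧
    (¬ IsSquare (Ideal.Quotient.mk v.asIdeal ((m : ℤ) : 𝓞 K)) → c v = σ (x v))

end

/-- `S` is the union of `ν` sets of diameter at most `1/(16 k)`. -/
def Cells (S : Type) [MetricSpace S] (ν k : ℕ) : Prop :=
  ∃ κ : S → Fin ν, ∀ y z, κ y = κ z → dist y z ≤ 1 / (16 * k)

/-- The squarefree integers `m`, `|m| ≤ X`, for which the classes `xm m` are not symmetric up to `1/k` at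
all scales `N` with `(log X)^A ≤ N ≤ X^c`. -/
def exceptions {K : Type} [Field K] [NumberField K] {S : Type} [MetricSpace S] (σ : S → S)
    (x : HeightOneSpectrum (𝓞 K) → S) (xm : ℤ → HeightOneSpectrum (𝓞 K) → S) (k : ℕ) (A c : ℝ)
    (X : ℕ) : Set ℤ :=
  {m : ℤ | Squarefree m ∧ m.natAbs ≤ X ∧
    ∃ N : ℕ, Real.log X ^ A ≤ N ∧ (N : ℝ) ≤ (X : ℝ) ^ c ∧ ¬ Symmetric σ x (xm m) N k}

/-- **Almost all quadratic twists are symmetric at all scales.**  Let `K` be a number field, `Z` a finite
set of primes of `K`, `ν`, `k ≥ 1`, `A > 1` and `ε > 0`.  There are `c > 0` and `C` such that for all metric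
spaces `S` that are unions of `ν` sets of diameter at most `1/(16 k)`, all `σ`, `1`-Lipschitz maps of `S`
to itself, all `x_v ∈ S` and the classes `xm m` of their twists by the squarefree integers `m`, for all
`X ≥ 1`: all but at most `C X^{1/A + ε}` of the squarefree `m` with `|m| ≤ X` are such that for all `N` with
`(log X)^A ≤ N ≤ X^c` the law of the `xm m v` at the scale `N` is within `1/k` of the symmetrised law of
the `x_v`. -/
theorem result (K : Type) [Field K] [NumberField K] (Z : Finset (HeightOneSpectrum (𝓞 K)))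
    (ν k : ℕ) (hk : 1 ≤ k) (A ε : ℝ) (hA : 1 < A) (hε : 0 < ε) :
    ∃ c C : ℝ, 0 < c ∧ 0 < C ∧ ∀ (S : Type) [MetricSpace S], Cells S ν k →
      ∀ σ : S → S, LipschitzWith 1 σ →
      ∀ (x : HeightOneSpectrum (𝓞 K) → S) (xm : ℤ → HeightOneSpectrum (𝓞 K) → S),
      (∀ m : ℤ, Squarefree m → Twist Z m σ x (xm m)) →
      ∀ X : ℕ, 1 ≤ X → ((exceptions σ x xm k A c X).ncard : ℝ) ≤ C * (X : ℝ) ^ (1 / A + ε) := by
  classical
  have hkR : (0 : ℝ) < k := by exact_mod_cast hk
  set n := Module.finrank ℚ K with hn
  set η : ℝ := 1 / (16 * k * ((ν : ℝ) + 1) * ((n : ℝ) + 1) ^ 2) with hη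
  have hA0 : 0 < A := by linarith
  have hη0 : 0 < η := by positivity
  have hη1 : η ≤ 1 := by
    rw [hη, div_le_one (by positivity)]
    have h1 : (1 : ℝ) ≤ k := by exact_mod_cast hk
    have h2 : (1 : ℝ) ≤ (ν : ℝ) + 1 := by
      have : (0 : ℝ) ≤ ν := Nat.cast_nonneg _
      linarith
    have h3 : (1 : ℝ) ≤ ((n : ℝ) + 1) ^ 2 := by
      have : (0 : ℝ) ≤ n := Nat.cast_nonneg _
      nlinarith
    calc (1 : ℝ) ≤ 16 * k := by linarith
      _ = 16 * k * 1 * 1 := by ring
      _ ≤ 16 * k * ((ν : ℝ) + 1) * ((n : ℝ) + 1) ^ 2 := by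
          refine mul_le_mul ?_ h3 zero_le_one (by positivity)
          exact mul_le_mul_of_nonneg_left h2 (by positivity)
  obtain ⟨c, K₀, hc0, hK₀, hfew⟩ := Pool.Agent.Q11.LQ.few (ν * (n + 1)) A η ε hA hη0 hη1 hε
  obtain ⟨N₀, hN₀⟩ := Pool.Agent.Q11.LQ.near Z A hA ν k hk
  obtain ⟨X₀, hX₀⟩ : ∃ X₀ : ℕ, ∀ X : ℕ, X₀ ≤ X → (N₀ : ℝ) < Real.log X ^ A := by
    have h1 : Tendsto (fun X : ℕ => Real.log X ^ A) atTop atTop :=
      (tendsto_rpow_atTop hA0).comp (Real.tendsto_log_atTop.comp tendsto_natCast_atTop_atTop)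
    exact eventually_atTop.1 (h1.eventually_gt_atTop _)
  refine ⟨c, 2 * K₀ + (2 * X₀ + 1), hc0, by positivity, ?_⟩
  intro S _ hS σ hσ x xm hxm X hX
  have hXR : (1 : ℝ) ≤ X := by exact_mod_cast hX
  have hXp : (1 : ℝ) ≤ (X : ℝ) ^ (1 / A + ε) := Real.one_le_rpow hXR (by positivity)
  obtain ⟨κ, hκ⟩ := hS
  by_cases hXX : X₀ ≤ X
  · let Q : Fin (ν * (n + 1)) → Set ℕ := fun a =>
      Pool.Agent.Q11.LQ.Qs κ x (finProdFinEquiv.symm a).1 ((finProdFinEquiv.symm a).2 : ℕ)
    have h1 := hfew 1 Q X hX
    have h2 := hfew (-1) Q X hX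
    have hsub : exceptions σ x xm k A c X ⊆
        (((Pool.Agent.Q11.LQ.biased 1 Q A c η X).image (fun m : ℕ => (m : ℤ)) ∪
        (Pool.Agent.Q11.LQ.biased (-1) Q A c η X).image (fun m : ℕ => -(m : ℤ)) : Finset ℤ) :
          Set ℤ) := by
      rintro m ⟨hm1, hm2, N, hN1, hN2, hN3⟩
      have hm0 : m ≠ 0 := hm1.ne_zero
      have hNN : N₀ ≤ N := by
        have := (hX₀ X hXX).trans_le hN1
        exact_mod_cast this.le
      have hlog : Real.log (m.natAbs : ℝ) ≤ (N : ℝ) ^ (1 / A) := by
        have hmp : (0 : ℝ) < m.natAbs := by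
          have := Int.natAbs_pos.2 hm0
          exact_mod_cast this
        have a1 : Real.log (m.natAbs : ℝ) ≤ Real.log X :=
          Real.log_le_log hmp (by exact_mod_cast hm2)
        have hl : 0 ≤ Real.log X := Real.log_nonneg hXR
        have a2 : Real.log X = (Real.log X ^ A) ^ (1 / A) := by
          rw [← Real.rpow_mul hl, mul_one_div_cancel hA0.ne', Real.rpow_one]
        rw [a2] at a1
        exact a1.trans (Real.rpow_le_rpow (by positivity) hN1 (by positivity))
      have hex : ∃ (i : Fin ν) (j : ℕ), j ≤ n ∧ η * (Nat.primeCounting N : ℝ) <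
          |(∑ p ∈ Pool.Agent.Y549.SP.oq (Pool.Agent.Q11.LQ.Qs κ x i j) N, (jacobiSym m p : ℝ))| := by
        by_contra hcon
        push Not at hcon
        exact hN3 fun f hf1 hf2 => hN₀ N hNN S κ hκ σ hσ x m (xm m) hm0 hlog (hxm m hm1)
          hcon f hf1 hf2
      obtain ⟨i, j, hj, hij⟩ := hex
      -- the index
      have hidx : ∃ a, Q a = Pool.Agent.Q11.LQ.Qs κ x i j := by
        refine ⟨finProdFinEquiv (i, ⟨j, Nat.lt_succ_of_le hj⟩), ?_⟩
        simp only [Q, Equiv.symm_apply_apply]
      obtain ⟨a, ha⟩ := hidx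
      rw [← ha] at hij
      have hsq : Squarefree m.natAbs := Int.squarefree_natAbs.2 hm1
      have hmem : m.natAbs ∈ Pool.Agent.Y549.SP.sq X := by
        unfold Pool.Agent.Y549.SP.sq
        exact Finset.mem_filter.2 ⟨Finset.mem_Icc.2 ⟨Int.natAbs_pos.2 hm0, hm2⟩, hsq⟩
      rw [Finset.mem_coe, Finset.mem_union, Finset.mem_image, Finset.mem_image]
      rcases Int.natAbs_eq m with h | h
      · left
        refine ⟨m.natAbs, Finset.mem_filter.2 ⟨hmem, N, hN1, hN2, a, ?_⟩, h.symm⟩
        unfold Pool.Agent.Y549.SP.sd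
        rw [one_mul, ← h]
        push_cast
        exact hij
      · right
        refine ⟨m.natAbs, Finset.mem_filter.2 ⟨hmem, N, hN1, hN2, a, ?_⟩, h.symm⟩
        unfold Pool.Agent.Y549.SP.sd
        rw [neg_one_mul, ← h]
        push_cast
        exact hij
    have h3 := Set.ncard_le_ncard hsub (Finset.finite_toSet _)
    rw [Set.ncard_coe_finset] at h3
    have h4 : ((exceptions σ x xm k A c X).ncard : ℝ) ≤
        ((Pool.Agent.Q11.LQ.biased 1 Q A c η X).card : ℝ) +
          ((Pool.Agent.Q11.LQ.biased (-1) Q A c η X).card : ℝ) := by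
      have h5 := h3.trans ((Finset.card_union_le _ _).trans
        (add_le_add Finset.card_image_le Finset.card_image_le))
      exact_mod_cast h5
    refine h4.trans ((add_le_add h1 h2).trans ?_)
    have h6 : (0 : ℝ) ≤ (2 * X₀ + 1) * (X : ℝ) ^ (1 / A + ε) := by positivity
    linarith
  · push Not at hXX
    have hsub : exceptions σ x xm k A c X ⊆ ((Finset.Icc (-(X₀ : ℤ)) X₀ : Finset ℤ) : Set ℤ) := by
      rintro m ⟨_, hm2, _⟩
      exact Finset.mem_coe.2 (Finset.mem_Icc.2 ⟨by omega, by omega⟩)
    have h3 := Set.ncard_le_ncard hsub (Finset.finite_toSet _)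
    rw [Set.ncard_coe_finset, Int.card_Icc] at h3
    have h5 : ((exceptions σ x xm k A c X).ncard : ℝ) ≤ 2 * X₀ + 1 := by
      have h6 : (exceptions σ x xm k A c X).ncard ≤ 2 * X₀ + 1 := by omega
      exact_mod_cast h6
    calc ((exceptions σ x xm k A c X).ncard : ℝ) ≤ (2 * K₀ + (2 * X₀ + 1)) * 1 := by linarith
      _ ≤ _ := mul_le_mul_of_nonneg_left hXp (by positivity)

end Pool.Agent.Results.MP_4c4ce6_nt.AlmostAllTwists
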