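import Pool.Agent.Q12.ST.Spc

/-!
# The defects of the Sato-Tate law over all extensions of a number field

`K` is a number field, `Γ = Gal(K̄/K)`, `G = ST_K` the Sato-Tate group of a compatible family over `K` as
in the problem, a compact group with Haar probability measure `μ`, and `x v ∈ G` an element of the class
of the prime `v` of `K` (any element at the finitely many exceptional primes).  The group of components
of `G` is a quotient `Γ / N`, the Galois group of a finite extension of `K`; `p : G → Γ / N` is the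
projection, and `p (x v)` is the class of the Frobenius elements at `v`.  For a finite extension `F` of
`K` in `K̄` the Sato-Tate group `ST_F` is the union `part p F` of the components of `G` belonging to the
image of `Gal(K̄/F)`, and the class of a prime `w` of `F` of residue degree one over the prime `v` of `K`
is contained in the class of `x v` in `G`; these primes `w` have density one.

For a class function `f` of `G` the law over `F` predicts that the averages of `f` over the classes of
the primes of `F` of norm at most `N` tend to `expected μ p F f`, the mean value of `f` on `ST_F`.  For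
`F = K` this is the law of the problem.  The theorem is unconditional; no L-function is used.
-/

set_option autoImplicit false

namespace Pool.Agent.Results.MP_4c4ce6_nt.ArtinSpectrum

open NumberField IsDedekindDomain Filter Topology MeasureTheory

section

variable {F : Type} [Field F] [NumberField F]

/-- The average of `φ` over the primes of `F` of norm at most `N`. -/
noncomputable def avg (φ : HeightOneSpectrum (𝓞 F) → ℝ) (N : ℕ) : ℝ :=
  (∑ᶠ w : {w : HeightOneSpectrum (𝓞 F) // Ideal.absNorm w.asIdeal ≤ N}, φ w.1) /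
    (Nat.card {w : HeightOneSpectrum (𝓞 F) // Ideal.absNorm w.asIdeal ≤ N} : ℝ)

/-- `y w` is a conjugate of `x v` for all but finitely many primes `w` of `F` of residue degree one over
the prime `v` of `K` below `w`. -/
def BaseChange {K : Type} [Field K] [NumberField K] [Algebra K F] {G : Type} [Group G]
    (x : HeightOneSpectrum (𝓞 K) → G) (y : HeightOneSpectrum (𝓞 F) → G) : Prop :=
  ∃ S : Finset (HeightOneSpectrum (𝓞 F)), ∀ w, w ∉ S → ∀ v : HeightOneSpectrum (𝓞 K),
    w.asIdeal.comap (algebraMap (𝓞 K) (𝓞 F)) = v.asIdeal →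
    Ideal.absNorm w.asIdeal = Ideal.absNorm v.asIdeal → ∃ h : G, y w = h * x v * h⁻¹

end

/-- The absolute Galois group of `K`. -/
abbrev Gamma (K : Type) [Field K] : Type := Gal(AlgebraicClosure K/K)

/-- `s` is a Frobenius element at the prime `v` of `K`: there is a maximal ideal `Q` above `v` of the ring
of all algebraic integers with `s x ≡ x ^ N(v)` modulo `Q` for all `x`. -/
def IsFrobeniusElement {K : Type} [Field K] [NumberField K] (v : HeightOneSpectrum (𝓞 K))
    (s : Gamma K) : Prop :=
  ∃ Q : Ideal (𝓞 (AlgebraicClosure K)), Q.IsMaximal ∧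
    Q.comap (algebraMap (𝓞 K) (𝓞 (AlgebraicClosure K))) = v.asIdeal ∧
    ∀ x : 𝓞 (AlgebraicClosure K), s • x - x ^ Ideal.absNorm v.asIdeal ∈ Q

section

variable {K : Type} [Field K]

/-- An Artin representation: a complex representation of the absolute Galois group which is trivial on an
open subgroup. -/
def IsArtin {n : ℕ} (χ : Representation ℂ (Gamma K) (Fin n → ℂ)) : Prop :=
  ∃ U : Subgroup (Gamma K), IsOpen (U : Set (Gamma K)) ∧ ∀ u ∈ U, χ u = 1

/-- The dimension of the space of the vectors fixed by the absolute Galois group of `F`. -/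
noncomputable def fixedDim {n : ℕ} (χ : Representation ℂ (Gamma K) (Fin n → ℂ))
    (F : IntermediateField K (AlgebraicClosure K)) : ℕ :=
  Module.finrank ℂ (Representation.invariants (χ.comp F.fixingSubgroup.subtype))

/-- Real numbers `δ F` for the number fields `F ⊇ K` and `a χ` for the representations `χ` satisfy:
* `a χ = a χ'` for equivalent Artin representations;
* `∑ a(χ_k)² ≤ s²` for all finite families of pairwise inequivalent irreducible Artin representations;
* for every number field `F ⊇ K` there are finitely many pairwise inequivalent irreducible Artin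
  representations `χ_k` such that all irreducible Artin representations with non-zero vectors fixed by
  `Gal(K̄/F)` are among them, up to equivalence, and `δ F = ∑ a(χ_k) dim χ_k^{Gal(K̄/F)}`;
* for every `c` and `η > 0` there is a finite Galois extension `M` of `K` such that
  `|δ F - δ (F ∩ M)| < η` for all number fields `F ⊇ K` of degree at most `c`. -/
def Spectrum (K : Type) [Field K] (s : ℝ) (δ : IntermediateField K (AlgebraicClosure K) → ℝ)
    (a : ∀ n : ℕ, Representation ℂ (Gamma K) (Fin n → ℂ) → ℝ) : Prop :=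
  (∀ (n n' : ℕ) (χ : Representation ℂ (Gamma K) (Fin n → ℂ))
    (χ' : Representation ℂ (Gamma K) (Fin n' → ℂ)), IsArtin χ → IsArtin χ' →
    Nonempty (χ.Equiv χ') → a n χ = a n' χ') ∧
  (∀ (κ : Type) [Fintype κ] (n : κ → ℕ)
    (χ : ∀ k, Representation ℂ (Gamma K) (Fin (n k) → ℂ)),
    (∀ k, IsArtin (χ k)) → (∀ k, (χ k).IsIrreducible) →
    (∀ k k', k ≠ k' → IsEmpty ((χ k).Equiv (χ k'))) → ∑ k, a (n k) (χ k) ^ 2 ≤ s ^ 2) ∧
  (∀ (F : IntermediateField K (AlgebraicClosure K)) [NumberField F],
    ∃ (κ : Type) (_ : Fintype κ) (n : κ → ℕ)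
      (χ : ∀ k, Representation ℂ (Gamma K) (Fin (n k) → ℂ)),
      (∀ k, IsArtin (χ k) ∧ (χ k).IsIrreducible) ∧
      (∀ k k', k ≠ k' → IsEmpty ((χ k).Equiv (χ k'))) ∧
      (∀ (n' : ℕ) (χ' : Representation ℂ (Gamma K) (Fin n' → ℂ)), IsArtin χ' →
        χ'.IsIrreducible → (∀ k, IsEmpty (χ'.Equiv (χ k))) → fixedDim χ' F = 0) ∧
      δ F = ∑ k, a (n k) (χ k) * fixedDim (χ k) F) ∧
  ∀ (c : ℕ) (η : ℝ), 0 < η → ∃ M : IntermediateField K (AlgebraicClosure K),
    FiniteDimensional K M ∧ IsGalois K M ∧
    ∀ (F : IntermediateField K (AlgebraicClosure K)) [NumberField F],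
      Module.finrank K F ≤ c → |δ F - δ (F ⊓ M)| < η

variable [NumberField K] {G : Type} [Group G] {N : Subgroup (Gamma K)} [N.Normal]

/-- The part `ST_F` of `G` belonging to the extension `F` of `K`. -/
def part (p : G →* Gamma K ⧸ N) (F : IntermediateField K (AlgebraicClosure K)) : Set G :=
  {g | ∃ γ ∈ F.fixingSubgroup, p g = QuotientGroup.mk γ}

/-- `p` is a continuous homomorphism onto the Galois group of a finite extension of `K`, and for almost
all `v` and all Frobenius elements `σ` at `v`, `p (x v)` is conjugate to the image of `σ`. -/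
structure IsSystem [TopologicalSpace G] (p : G →* Gamma K ⧸ N)
    (x : HeightOneSpectrum (𝓞 K) → G) : Prop where
  isOpen : IsOpen (N : Set (Gamma K))
  onto : Function.Surjective p
  openKernel : IsOpen (p.ker : Set G)
  classes : ∃ S : Finset (HeightOneSpectrum (𝓞 K)), ∀ v, v ∉ S → ∀ σ : Gamma K,
    IsFrobeniusElement v σ → ∃ δ : Gamma K ⧸ N, p (x v) = δ * QuotientGroup.mk σ * δ⁻¹

variable [MeasurableSpace G]

/-- The mean value of `f` on `ST_F`. -/
noncomputable def expected (μ : Measure G) (p : G →* Gamma K ⧸ N)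
    (F : IntermediateField K (AlgebraicClosure K)) (f : G → ℝ) : ℝ :=
  ⨍ g in part p F, f g ∂μ

/-- The mean value of `f` on the component `δ`. -/
noncomputable def componentMean (μ : Measure G) (p : G →* Gamma K ⧸ N) (f : G → ℝ)
    (δ : Gamma K ⧸ N) : ℝ :=
  ⨍ g in p ⁻¹' {δ}, f g ∂μ

variable [TopologicalSpace G]

/-- Let `f` be a continuous real class function of `G` which varies by at most `s` on each component.
Every sequence `z_j → ∞` has a subsequence along which, for all number fields `F ⊇ K`, the defects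
`avg f - expected f` over the primes of `F` of norm at most `z_j` have a limit `δ F`, and for all Artin
representations `χ` of `K` the average over the primes of `K` of norm at most `z_j` of
`(f (x v) - componentMean) * Re χ(Frob_v⁻¹)` has a limit `a χ`, and `δ` and `a` satisfy the laws of
`Spectrum` for `s`. -/
def Spectral (μ : Measure G) (p : G →* Gamma K ⧸ N) (x : HeightOneSpectrum (𝓞 K) → G) : Prop :=
  ∀ (f : G → ℝ) (s : ℝ), Continuous f → (∀ g h, f (h * g * h⁻¹) = f g) →
    (∀ g h, p g = p h → |f g - f h| ≤ s) →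
    ∀ σ : HeightOneSpectrum (𝓞 K) → Gamma K, (∀ v, IsFrobeniusElement v (σ v)) →
    ∀ z : ℕ → ℕ, Tendsto z atTop atTop → ∃ φ : ℕ → ℕ, StrictMono φ ∧
    ∃ (δ : IntermediateField K (AlgebraicClosure K) → ℝ)
      (a : ∀ n : ℕ, Representation ℂ (Gamma K) (Fin n → ℂ) → ℝ),
      (∀ (F : IntermediateField K (AlgebraicClosure K)) [NumberField F]
        (y : HeightOneSpectrum (𝓞 F) → G), BaseChange x y →
        Tendsto (fun j => avg (fun w => f (y w)) (z (φ j)) - expected μ p F f) atTop
          (𝓝 (δ F))) ∧
      (∀ (n : ℕ) (χ : Representation ℂ (Gamma K) (Fin n → ℂ)), IsArtin χ →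
        Tendsto (fun j => avg (fun v =>
          (f (x v) - componentMean μ p f (QuotientGroup.mk (σ v))) * (χ.character (σ v)⁻¹).re)
            (z (φ j))) atTop (𝓝 (a n χ))) ∧
      Spectrum K s δ a

end

section Bridge

open Pool.Agent.W401.Cheb Pool.Agent.Q12.ST.Des
open Pool.Agent.W353.AT (MRep Irr Sim)

variable {K : Type} [Field K] [NumberField K]

/-- the laws of the spectrum -/
theorem to_spectrum {s : ℝ} {δF : IntermediateField K (AlgebraicClosure K) → ℝ}
    {δA : MRep (GK K) → ℝ}
    (h3 : ∀ S : Finset (MRep (GK K)), (∀ p ∈ S, Irr p) →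
        (∀ p ∈ S, ∀ q ∈ S, p ≠ q → ¬ Sim p q) → ∑ p ∈ S, (δA p) ^ 2 ≤ s ^ 2)
    (hcong : ∀ x y, Pool.Agent.W353.AT.IsArtin x.2 → Pool.Agent.W353.AT.IsArtin y.2 → Sim x y →
      δA x = δA y)
    (h4 : ∀ (F : IntermediateField K (AlgebraicClosure K)) [NumberField F],
        ∃ S : Finset (MRep (GK K)), (∀ p ∈ S, Irr p) ∧
          (∀ p ∈ S, ∀ q ∈ S, p ≠ q → ¬ Sim p q) ∧
          (∀ x, Irr x → (∀ p ∈ S, ¬ Sim x p) → Pool.Agent.W353.AT.fixedDim x.2 F = 0) ∧
          δF F = ∑ p ∈ S, δA p * Pool.Agent.W353.AT.fixedDim p.2 F)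
    (h5 : ∀ (c : ℕ) (η : ℝ), 0 < η → ∃ M : IntermediateField K (AlgebraicClosure K),
        FiniteDimensional K M ∧ IsGalois K M ∧
        ∀ (F : IntermediateField K (AlgebraicClosure K)) [NumberField F],
          Module.finrank K F ≤ c → |δF F - δF (F ⊓ M)| < η) :
    Spectrum K s δF fun k χ => δA ⟨k, χ⟩ := by
  classical
  refine ⟨fun k k' χ χ' hχ hχ' he => hcong ⟨k, χ⟩ ⟨k', χ'⟩ hχ hχ' he, ?_, ?_, h5⟩
  · intro κ _ n χ hA hirr hne
    set g : κ → MRep (GK K) := fun k => ⟨n k, χ k⟩ with hg
    have hinj : Function.Injective g := by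
      intro k k' hkk
      by_contra h
      have h1 := hne k k' h
      have h2 : Sim (g k) (g k') := by
        rw [hkk]
        exact Pool.Agent.W353.AT.Sim.refl _
      exact (not_nonempty_iff.2 h1) h2
    have h1 := h3 (Finset.univ.image g) (fun p hp => by
        obtain ⟨k, -, rfl⟩ := Finset.mem_image.1 hp
        exact ⟨hA k, hirr k⟩) (fun p hp q hq hpq => by
        obtain ⟨k, -, rfl⟩ := Finset.mem_image.1 hp
        obtain ⟨k', -, rfl⟩ := Finset.mem_image.1 hq
        have h2 : k ≠ k' := fun h => hpq (by rw [h])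
        exact not_nonempty_iff.2 (hne k k' h2))
    rwa [Finset.sum_image fun a _ b _ hab => hinj hab] at h1
  · intro F _
    obtain ⟨S, hS1, hS2, hS3, hS4⟩ := h4 F
    refine ⟨S, inferInstance, fun k => k.1.1, fun k => k.1.2, fun k => hS1 k.1 k.2,
      fun k k' hkk => ?_, fun n' χ' hA' hi' hne' => ?_, ?_⟩
    · exact not_nonempty_iff.1 (hS2 k.1 k.2 k'.1 k'.2 fun h => hkk (Subtype.ext h))
    · exact hS3 ⟨n', χ'⟩ ⟨hA', hi'⟩ fun p hp hs => (not_nonempty_iff.2 (hne' ⟨p, hp⟩)) hs
    · rw [hS4, ← Finset.sum_coe_sort S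
        (fun p => δA p * Pool.Agent.W353.AT.fixedDim p.2 F)]
      rfl

end Bridge

/-- **The defects of the Sato-Tate law over the extensions of a number field.**  Let `K` be a number field, `G` a
compact group with Haar probability measure `μ`, `p` a continuous homomorphism of `G` onto the Galois
group `Γ / N` of a finite extension of `K`, and `x v ∈ G` for the primes `v` of `K` such that `p (x v)` is
the class of the Frobenius elements at `v` for almost all `v`.  Then the law `Spectral` holds. -/
theorem result (K : Type) [Field K] [NumberField K] (G : Type) [Group G] [TopologicalSpace G]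
    [IsTopologicalGroup G] [CompactSpace G] [MeasurableSpace G] [BorelSpace G] (μ : Measure G)
    [IsProbabilityMeasure μ] [μ.IsMulLeftInvariant] [μ.IsMulRightInvariant]
    (N : Subgroup (Gamma K)) [N.Normal] (p : G →* Gamma K ⧸ N)
    (x : HeightOneSpectrum (𝓞 K) → G) (h : IsSystem p x) :
    Spectral μ p x := by
  classical
  intro f s hf hcl hosc σ hσ z hz
  have hs : 0 ≤ s := (abs_nonneg _).trans (hosc 1 1 rfl)
  obtain ⟨φ, hφ, zF, zA, h1, h2, h3, h4, h5, h6⟩ :=
    Pool.Agent.Q12.ST.Des.spectrum_main (μ := μ) h.isOpen h.onto h.openKernel h.classes hf hcl hs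
      hosc σ hσ hz
  exact ⟨φ, hφ, zF, fun n χ => zA ⟨n, χ⟩, fun F _ y hy => h1 F y hy,
    fun n χ hχ => h2 ⟨n, χ⟩ hχ, to_spectrum h3 (fun c c' hc hc' hcc => h5 c c' hc hc' hcc) h4 h6⟩

end Pool.Agent.Results.MP_4c4ce6_nt.ArtinSpectrum
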